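import Pool.Agent.H77.IsDefs

namespace Pool.Agent.Results.MP_eb524a_co.Exact

open H77.Is Finset

theorem mem_ends {c : ℕ → ℝ} {t : ℕ} {x : ℝ} :
    x ∈ ends c t ↔ x = 0 ∨ x = 1 ∨ ∃ i < t - 1, c i = x := by simp [ends]

theorem below (E : Finset ℝ) (p : ℝ) (h : ∃ x ∈ E, x < p) :
    ∃ a ∈ E, a < p ∧ ∀ x ∈ E, x < p → x ≤ a := by
  obtain ⟨x, hx, hx'⟩ := h
  obtain ⟨a, ha, ha'⟩ := (E.filter (· < p)).exists_max_image id ⟨x, mem_filter.2 ⟨hx, hx'⟩⟩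
  exact ⟨a, (mem_filter.1 ha).1, (mem_filter.1 ha).2, fun y hy hy' =>
    ha' y (mem_filter.2 ⟨hy, hy'⟩)⟩

theorem above (E : Finset ℝ) (p : ℝ) (h : ∃ x ∈ E, p < x) :
    ∃ b ∈ E, p < b ∧ ∀ x ∈ E, p < x → b ≤ x := by
  obtain ⟨x, hx, hx'⟩ := h
  obtain ⟨a, ha, ha'⟩ := (E.filter (p < ·)).exists_min_image id ⟨x, mem_filter.2 ⟨hx, hx'⟩⟩
  exact ⟨a, (mem_filter.1 ha).1, (mem_filter.1 ha).2, fun y hy hy' =>
    ha' y (mem_filter.2 ⟨hy, hy'⟩)⟩

theorem step {c : ℕ → ℝ} {n t : ℕ} (h : IsStrategy c n) (h1 : 1 ≤ t) (h2 : t + 1 ≤ n) :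
    ∃ l ∈ lengths c t, ∃ l' ∈ lengths c (t + 1), 2 * l' ≤ l := by
  set p := c (t - 1) with hp
  have p0 := h.1 (t - 1) (by omega)
  have pn : ∀ x ∈ ends c t, x ≠ p := by
    intro x hx e
    rcases mem_ends.1 hx with h0 | h0 | ⟨i, hi, h0⟩
    · exact p0.1.ne' (e.symm.trans h0)
    · exact p0.2.ne (e.symm.trans h0)
    · have := h.2 (show i < n - 1 by omega) (show t - 1 < n - 1 by omega) (h0.trans e)
      omega
  have su : ∀ x, x ∈ ends c (t + 1) ↔ x ∈ ends c t ∨ x = p := by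
    intro x
    simp only [mem_ends]
    constructor
    · rintro (h0 | h0 | ⟨i, hi, h0⟩)
      · exact .inl (.inl h0)
      · exact .inl (.inr (.inl h0))
      · by_cases e : i = t - 1
        · exact .inr (by rw [← h0, e])
        · exact .inl (.inr (.inr ⟨i, by omega, h0⟩))
    · rintro ((h0 | h0 | ⟨i, hi, h0⟩) | h0)
      · exact .inl h0
      · exact .inr (.inl h0)
      · exact .inr (.inr ⟨i, by omega, h0⟩)
      · exact .inr (.inr ⟨t - 1, by omega, h0.symm⟩)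
  obtain ⟨a, a1, a2, a3⟩ := below (ends c t) p ⟨0, mem_ends.2 (.inl rfl), p0.1⟩
  obtain ⟨b, b1, b2, b3⟩ := above (ends c t) p ⟨1, mem_ends.2 (.inr (.inl rfl)), p0.2⟩
  have k : ∀ x ∈ ends c t, x ≤ a ∨ b ≤ x := fun x hx =>
    (lt_or_gt_of_ne (pn x hx)).imp (a3 x hx) (b3 x hx)
  refine ⟨b - a, ⟨a, a1, b, b1, a2.trans b2, k, rfl⟩, ?_⟩
  rcases le_total (p - a) (b - p) with e | e
  · refine ⟨p - a, ⟨a, (su a).2 (.inl a1), p, (su p).2 (.inr rfl), a2, fun x hx => ?_, rfl⟩,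
      by linarith⟩
    rcases (su x).1 hx with hx | hx
    · exact (k x hx).imp id b2.le.trans
    · exact .inr hx.ge
  · refine ⟨b - p, ⟨p, (su p).2 (.inr rfl), b, (su b).2 (.inl b1), b2, fun x hx => ?_, rfl⟩,
      by linarith⟩
    rcases (su x).1 hx with hx | hx
    · exact (k x hx).imp (fun h => h.trans a2.le) id
    · exact .inl hx.le

theorem survive {c : ℕ → ℝ} {n s : ℕ} (h : IsStrategy c n) (h1 : 1 ≤ s) (h2 : 2 * s - 1 ≤ n) :
    ∃ l ∈ lengths c s, l ∈ lengths c (s + (s - 1)) := by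
  classical
  have bl' : ∀ i, ∃ a, i < n - 1 → a ∈ ends c s ∧ a < c i ∧ ∀ x ∈ ends c s, x < c i → x ≤ a :=
    fun i => by
    by_cases hi : i < n - 1
    · obtain ⟨a, a2⟩ := below (ends c s) (c i) ⟨0, mem_ends.2 (.inl rfl), (h.1 i hi).1⟩
      exact ⟨a, fun _ => a2⟩
    · exact ⟨0, fun h => absurd h hi⟩
  choose f hf using bl'
  have c1 : (insert 0 ((range (s - 1)).image c)).card = s := by
    rw [card_insert_of_notMem, card_image_of_injOn, card_range]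
    · omega
    · exact h.2.mono fun i hi => by simp at hi ⊢; omega
    · simp only [mem_image, mem_range, not_exists, not_and]
      exact fun i hi e => (h.1 i (by omega)).1.ne' e
  have c2 : ((Ico (s - 1) (2 * s - 2)).image f).card < s :=
    lt_of_le_of_lt card_image_le (by rw [Nat.card_Ico]; omega)
  obtain ⟨a, a1, a2⟩ := exists_mem_notMem_of_card_lt_card (c1.symm ▸ c2)
  have a3 : a ∈ ends c s ∧ a < 1 := by
    rcases mem_insert.1 a1 with e | e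
    · exact ⟨mem_ends.2 (.inl e), e ▸ one_pos⟩
    · obtain ⟨i, hi, e⟩ := mem_image.1 e
      have hi' := mem_range.1 hi
      exact ⟨mem_ends.2 (.inr (.inr ⟨i, hi', e⟩)), e ▸ (h.1 i (by omega)).2⟩
  obtain ⟨b, b1, b2, b3⟩ := above (ends c s) a ⟨1, mem_ends.2 (.inr (.inl rfl)), a3.2⟩
  have k : ∀ x ∈ ends c s, x ≤ a ∨ b ≤ x := fun x hx => (le_or_gt x a).imp id (b3 x hx)
  have mo : ∀ x ∈ ends c s, x ∈ ends c (s + (s - 1)) := fun x hx => by
    rw [mem_ends] at hx ⊢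
    exact hx.imp id (Or.imp id fun ⟨i, hi, e⟩ => ⟨i, by omega, e⟩)
  refine ⟨b - a, ⟨a, a3.1, b, b1, b2, k, rfl⟩, a, mo a a3.1, b, mo b b1, b2, fun x hx => ?_, rfl⟩
  rcases mem_ends.1 hx with e | e | ⟨i, hi, e⟩
  · exact k x (mem_ends.2 (.inl e))
  · exact k x (mem_ends.2 (.inr (.inl e)))
  · by_cases hi' : i < s - 1
    · exact k x (mem_ends.2 (.inr (.inr ⟨i, hi', e⟩)))
    · by_contra hn
      push Not at hn
      obtain ⟨f1, f2, f3⟩ := hf i (by omega)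
      refine a2 (mem_image.2 ⟨i, mem_Ico.2 ⟨by omega, by omega⟩, le_antisymm ?_ (f3 a a3.1 (e ▸ hn.1))⟩)
      exact (k _ f1).resolve_right fun h => by linarith [hn.2]

theorem result (n : ℕ) (hn : 1 ≤ n) (c : ℕ → ℝ) (h : IsStrategy c n) :
    ∃ t, 1 ≤ t ∧ t ≤ n ∧ ∃ l₁ ∈ lengths c t, ∃ l₂ ∈ lengths c t,
      (2 : ℝ) ^ (1 - 1 / (⌈(n : ℝ) / 2⌉₊ : ℝ)) ≤ l₁ / l₂ := by
  have hs : ⌈(n : ℝ) / 2⌉₊ = (n + 1) / 2 := by
    rw [Nat.ceil_eq_iff (by omega)]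
    have e1 : ((2 * ((n + 1) / 2 - 1) + 1 : ℕ) : ℝ) ≤ n := Nat.cast_le.2 (by omega)
    have e2 : (n : ℝ) ≤ ((2 * ((n + 1) / 2) : ℕ) : ℝ) := Nat.cast_le.2 (by omega)
    rw [Nat.cast_add, Nat.cast_mul] at e1
    rw [Nat.cast_mul] at e2
    norm_num at e1 e2 ⊢
    constructor <;> linarith
  rw [hs]
  set s := (n + 1) / 2 with hs'
  set ρ := (2 : ℝ) ^ (1 - 1 / (s : ℝ)) with hρ
  have s1 : 1 ≤ s := by omega
  have ρ0 : 0 < ρ := by positivity
  have ρs : ρ ^ s = 2 ^ (s - 1) := by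
    have : (s : ℝ) ≠ 0 := by positivity
    rw [hρ, ← Real.rpow_natCast, ← Real.rpow_mul (by norm_num), ← Real.rpow_natCast,
      Nat.cast_sub s1]
    congr 1; field_simp; norm_num
  by_contra hc
  push Not at hc
  have pos : ∀ t, ∀ l ∈ lengths c t, 0 < l := by
    rintro t l ⟨a, -, b, -, hab, -, rfl⟩; linarith
  have hc' : ∀ t, 1 ≤ t → t ≤ n → ∀ l₁ ∈ lengths c t, ∀ l₂ ∈ lengths c t, l₁ < ρ * l₂ :=
    fun t t1 t2 l₁ h1 l₂ h2 => (div_lt_iff₀ (pos t l₂ h2)).1 (hc t t1 t2 l₁ h1 l₂ h2)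
  have ind : ∀ j, s + j ≤ n → ∀ l ∈ lengths c (s + j), ∃ l' ∈ lengths c s,
      2 ^ j * l ≤ ρ ^ j * l' := by
    intro j
    induction j with
    | zero => exact fun _ l hl => ⟨l, hl, by simp⟩
    | succ j ih =>
      intro hj l hl
      obtain ⟨u, hu, v, hv, huv⟩ := step (t := s + j) h (by omega) hj
      obtain ⟨l', hl', e⟩ := ih (by omega) u hu
      have := hc' _ (by omega) hj l hl v hv
      refine ⟨l', hl', ?_⟩
      have e2 : 2 * l ≤ ρ * u := by nlinarith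
      calc 2 ^ (j + 1) * l = 2 ^ j * (2 * l) := by ring
        _ ≤ 2 ^ j * (ρ * u) := by gcongr
        _ = ρ * (2 ^ j * u) := by ring
        _ ≤ ρ * (ρ ^ j * l') := by gcongr
        _ = _ := by ring
  obtain ⟨l, l1, l2⟩ := survive h s1 (by omega)
  obtain ⟨l', l3, l4⟩ := ind (s - 1) (by omega) l l2
  have l5 := hc' s s1 (by omega) l' l3 l l1
  have : ρ ^ (s - 1) * l' < ρ ^ (s - 1) * (ρ * l) := by gcongr
  rw [← mul_assoc, ← pow_succ, Nat.sub_add_cancel s1, ρs] at this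
  linarith

end Pool.Agent.Results.MP_eb524a_co.Exact
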